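import Pool.Agent.P.MP_406085_lc.Eff.Main

namespace Pool.Agent.Results.MP_406085_lc.EffectivePeriod

open Pool.Agent.P.MP_406085_lc

/-- From two HD0L systems one can compute a period `M > 0`, a list `L` of residues and a bound
`B` such that the equality set differs from `{n | n % M ∈ L}` in at most `B` places. -/
theorem result : ∃ φ : (List ℕ × List (List ℕ) × List (List ℕ)) ×
      (List ℕ × List (List ℕ) × List (List ℕ)) → ℕ × List ℕ × ℕ,
    Computable φ ∧ ∀ (u : List ℕ) (g₁ g₂ : List (List ℕ)) (v : List ℕ) (h₁ h₂ : List (List ℕ))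
      (M : ℕ) (L : List ℕ) (B : ℕ), φ ((u, g₁, g₂), (v, h₁, h₂)) = (M, L, B) →
        0 < M ∧ Set.encard {n : ℕ | ¬ (mor g₂ ((mor g₁)^[n] u) = mor h₂ ((mor h₁)^[n] v) ↔
          n % M ∈ L)} ≤ (B : ℕ∞) := by
  obtain ⟨φ, h1, h2⟩ := Eff.two_sys
  refine ⟨φ, h1, fun u g₁ g₂ v h₁ h₂ M L B h => ?_⟩
  have := h2 ((u, g₁, g₂), (v, h₁, h₂))
  rw [h] at this
  exact this

end Pool.Agent.Results.MP_406085_lc.EffectivePeriod
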