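import Pool.Agent.P.MP_406085_lc.Final

namespace Pool.Agent.Results.MP_406085_lc.TuringSkolem

open Pool.Agent.P.MP_406085_lc

/-- D0L compatibility is Turing equivalent to the Skolem problem. -/
theorem result : TuringEquivalent (chi Compat) (chi Skolem) := by
  obtain ⟨A, hA, hA'⟩ := computable_eqn
  obtain ⟨φ, hφ, hφ'⟩ := exists_conv
  refine ⟨tur_of_search hA computable_ins (fun p => exists_congr fun n => (hA' p n).symm)
    fun p => ⟨fun h => ?_, fun ⟨k, hk⟩ ⟨n, hn⟩ => hk ⟨n, ins_sound p k hn⟩⟩,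
    tur_of_many_one hφ hφ'⟩
  obtain ⟨k, hk⟩ := exists_cert' p
  exact ⟨k, fun ⟨n, hn⟩ => h ⟨n, (hk n).mp hn⟩⟩

end Pool.Agent.Results.MP_406085_lc.TuringSkolem
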